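import Mathlib
import Pool.Graph.R_pool_sql_team_seeded_b0a926ef.R298.CC.Com
import Pool.Graph.R_pool_sql_team_seeded_f72693b1.W662.KKS.Asm2
import Pool.Graph.R_pool_sql_team_seeded_f72693b1.W357.KKS.STD
import Pool.Graph.R_pool_sql_team_seeded_f72693b1.W99.KKS.Red2
import Pool.Graph.R_pool_sql_team_seeded_f72693b1.W346.KKS.PRJ
import Pool.Graph.R_pool_sql_team_seeded_f72693b1.W407.KKS.CutN
import Pool.Graph.R_pool_sql_team_seeded_f72693b1.W99.KKS.GUL
import Pool.Graph.R_pool_sql_team_seeded_f72693b1.W690.KKS.Giter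
import Pool.Graph.R_pool_sql_team_seeded_f72693b1.W662.KKS.GStepC
import Pool.Graph.R_pool_sql_team_seeded_f72693b1.W287.KKS.Hstep
import Pool.Graph.R_pool_sql_team_seeded_f72693b1.W692.KKS.Cinst
import Pool.Graph.R_pool_sql_team_seeded_f72693b1.W177.KKS.Crn
import Pool.Graph.R_pool_sql_team_seeded_f72693b1.W397.KKS.UKPW
import Pool.Graph.R_pool_sql_team_seeded_f72693b1.W646.KKS.RNW
import Pool.Graph.R_pool_sql_team_seeded_f72693b1.W696.KKS.Rna
import Pool.Graph.R_pool_sql_team_seeded_f72693b1.W357.KKS.UNI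
import Pool.Graph.R_pool_sql_team_seeded_f72693b1.W253.KKS.Star
import Pool.Graph.R_pool_sql_team_seeded_f72693b1.W837.KKS.Mean
import Pool.Graph.R_pool_sql_team_seeded_f72693b1.W837.KKS.Bessel
import Pool.Graph.R_pool_sql_team_seeded_f72693b1.W462.KKS.FFL
import Pool.Graph.R_pool_sql_team_seeded_f72693b1.W337.KKS.Exp
import Pool.Graph.R_pool_sql_team_seeded_f72693b1.W337.KKS.Base
import Pool.Graph.R_pool_sql_team_seeded_f72693b1.W337.KKS.Opr
import Pool.Graph.R_pool_sql_team_seeded_f72693b1.W598.KKS.Ext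
import Pool.Graph.R_pool_sql_team_seeded_f72693b1.W63.KKS.USel
import Pool.Graph.R_pool_sql_team_seeded_f72693b1.W690.KKS.Uavg
import Pool.Graph.R_pool_sql_team_seeded_f72693b1.W63.KKS.LG3
import Pool.Graph.R_pool_sql_team_seeded_f72693b1.W696.KKS.Lg2
import Pool.Graph.R_pool_sql_team_seeded_f72693b1.W407.KKS.LG1
import Pool.Graph.R_pool_sql_team_seeded_f72693b1.W991.KKS.Gci
import Pool.Graph.R_pool_sql_team_seeded_f72693b1.W82.KKS.HH
import Pool.Graph.R_pool_sql_team_seeded_f72693b1.W475.KKS.Cmp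
import Pool.Graph.R_pool_sql_team_seeded_f72693b1.W63.KKS.Tra
import Pool.Graph.R_pool_sql_team_seeded_f72693b1.W991.KKS.Ampl

set_option autoImplicit false
set_option linter.unusedSectionVars false

/-!
Final assembly of the library project KKS (Kadison-Kastler stability of II₁ factors).
-/

open scoped InnerProductSpace

namespace Pool.Agent.H256.KKS

open Pool.Agent.W662.KKS

theorem nc : S_NC := by
  obtain ⟨K, hK, h⟩ := Pool.Agent.R298.CC.exists_near_of_near
  refine ⟨K, hK, ?_⟩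
  intro H _ _ _ M N d hd hNM
  have h1 : Pool.Agent.R298.CC.Near d N M := by
    intro x hx hx1
    obtain ⟨y, hy, hxy⟩ := hNM x hx
    refine ⟨y, hy, hxy.trans ?_⟩
    calc d * ‖x‖ ≤ d * 1 := mul_le_mul_of_nonneg_left hx1 hd.le
      _ = d := mul_one d
  have h2 := h H N M d hd h1
  intro x hx
  exact Pool.Agent.R298.CC.Near.norm h2 hx

theorem rnw : S_RNW := Pool.Agent.W646.KKS.rnw Pool.Agent.W696.KKS.rna

theorem star3 : S_STAR :=
  Pool.Agent.W253.KKS.star' (Pool.Agent.W837.KKS.mean Pool.Agent.W837.KKS.sm)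
    Pool.Agent.W462.KKS.ffl

theorem uni : S_UNI :=
  Pool.Agent.W357.KKS.UNI.uni star3 (Pool.Agent.W337.KKS.exp' Pool.Agent.W337.KKS.mcoc)
    Pool.Agent.W337.KKS.opr

theorem lg3 : S_LG3 :=
  Pool.Agent.W63.KKS.lg3 (Pool.Agent.W696.KKS.Lg2.lg2 Pool.Agent.W407.KKS.lg1)

theorem hstep : S_HSTEP :=
  Pool.Agent.W287.KKS.hstep rnw uni Pool.Agent.W598.KKS.ext' Pool.Agent.W63.KKS.USel.usel
    Pool.Agent.W690.KKS.uavg lg3

theorem cinst : S_CINST := Pool.Agent.W692.KKS.cinst Pool.Agent.W177.KKS.crn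

theorem gstep : S_GSTEP := Pool.Agent.W662.GStepC.gstep hstep cinst Pool.Agent.W397.KKS.ukpw

theorem giter : S_GITER := Pool.Agent.W690.KKS.giter gstep

theorem hh : S_HH := Pool.Agent.W82.KKS.hh' Pool.Agent.W346.KKS.prj Pool.Agent.W475.KKS.cmp

theorem gci : S_GCI := Pool.Agent.W991.KKS.gci cinst hh

theorem red2 : S_RED2 :=
  Pool.Agent.W99.KKS.Red2.red2 Pool.Agent.W346.KKS.prj nc Pool.Agent.W407.KKS.cutn

/-- Kadison-Kastler stability of II₁ factors -/
theorem gmain : S_GMAIN :=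
  gmain' Pool.Agent.W357.KKS.STD.std red2 Pool.Agent.W99.KKS.GUL.gul giter gci
    Pool.Agent.W63.KKS.tra Pool.Agent.W991.KKS.ampl Pool.Agent.W407.KKS.cutn

end Pool.Agent.H256.KKS
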