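import Mathlib
import Pool.Agent.H256.KKS.Stab

set_option autoImplicit false
set_option linter.unusedSectionVars false

/-! Kadison-Kastler stability, in terms of the Hausdorff distance of the unit balls. -/

open scoped InnerProductSpace

namespace Pool.Agent.H256.KKS

open Pool.Agent.W662.KKS Pool.Agent.Helper278

variable {H : Type} [NormedAddCommGroup H] [InnerProductSpace ℂ H] [CompleteSpace H]

theorem near_of_hd {M N : VonNeumannAlgebra H} {δ : ℝ}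
    (h : Metric.hausdorffDist {x : H →L[ℂ] H | x ∈ M ∧ ‖x‖ ≤ 1} {x | x ∈ N ∧ ‖x‖ ≤ 1} < δ) :
    Near (M : Set (H →L[ℂ] H)) N δ := by
  have hne : ∀ W : VonNeumannAlgebra H, {x : H →L[ℂ] H | x ∈ W ∧ ‖x‖ ≤ 1}.Nonempty := fun W =>
    ⟨0, zero_mem W, by rw [norm_zero]; exact zero_le_one⟩
  have hbd : ∀ W : VonNeumannAlgebra H,
      Bornology.IsBounded {x : H →L[ℂ] H | x ∈ W ∧ ‖x‖ ≤ 1} := by
    intro W
    refine (Metric.isBounded_closedBall (x := (0 : H →L[ℂ] H)) (r := 1)).subset ?_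
    intro x hx
    rw [Metric.mem_closedBall, dist_zero_right]
    exact hx.2
  have hfin := Metric.hausdorffEDist_ne_top_of_nonempty_of_bounded (hne M) (hne N) (hbd M) (hbd N)
  intro x hx
  by_cases h0 : x = 0
  · refine ⟨0, zero_mem N, ?_⟩
    rw [h0, sub_zero, norm_zero, mul_zero]
  have hn : 0 < ‖x‖ := norm_pos_iff.mpr h0
  have h1 : ((‖x‖⁻¹ : ℝ) : ℂ) • x ∈ {x : H →L[ℂ] H | x ∈ M ∧ ‖x‖ ≤ 1} := by
    refine ⟨M.toStarSubalgebra.smul_mem hx _, ?_⟩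
    rw [norm_smul, Complex.norm_real, Real.norm_eq_abs, abs_of_pos (inv_pos.mpr hn),
      inv_mul_cancel₀ hn.ne']
  obtain ⟨y, hy, hxy⟩ := Metric.exists_dist_lt_of_hausdorffDist_lt h1 h hfin
  refine ⟨((‖x‖ : ℝ) : ℂ) • y, N.toStarSubalgebra.smul_mem hy.1 _, ?_⟩
  rw [dist_eq_norm] at hxy
  have e1 : x - ((‖x‖ : ℝ) : ℂ) • y = ((‖x‖ : ℝ) : ℂ) • (((‖x‖⁻¹ : ℝ) : ℂ) • x - y) := by
    rw [smul_sub, smul_smul, ← Complex.ofReal_mul, mul_inv_cancel₀ hn.ne', Complex.ofReal_one,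
      one_smul]
  rw [e1, norm_smul, Complex.norm_real, Real.norm_eq_abs, abs_of_pos hn, mul_comm]
  exact mul_le_mul_of_nonneg_right hxy.le hn.le

theorem ii_of {M : VonNeumannAlgebra H}
    (h1 : ∀ z ∈ M, (∀ a ∈ M, z * a = a * z) → ∃ c : ℂ, z = c • 1)
    (h2 : ¬ FiniteDimensional ℂ M.toStarSubalgebra) (ξ : ℕ → H)
    (h3 : Summable (fun k => ‖ξ k‖ ^ 2)) (h4 : ∑' k, ⟪ξ k, (1 : H →L[ℂ] H) (ξ k)⟫_ℂ = 1)
    (h5 : ∀ a ∈ M, ∀ b ∈ M, ∑' k, ⟪ξ k, (a * b) (ξ k)⟫_ℂ = ∑' k, ⟪ξ k, (b * a) (ξ k)⟫_ℂ)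
    (h6 : ∀ a ∈ M, ∑' k, ⟪ξ k, (star a * a) (ξ k)⟫_ℂ = 0 → a = 0) :
    IsIIOneFactor M (fun x : Elt M => ∑' k, ⟪ξ k, (x : H →L[ℂ] H) (ξ k)⟫_ℂ) := by
  refine ⟨h1, h2, ⟨h4, fun x y => h5 x x.2 y y.2, fun x hx => ?_⟩, ξ, h3, fun x => rfl⟩
  exact Subtype.ext (h6 x x.2 hx)

/-- **Kadison-Kastler stability of II₁ factors** -/
theorem kk : ∃ δ : ℝ, 0 < δ ∧ ∀ (H : Type) [NormedAddCommGroup H]
    [InnerProductSpace ℂ H] [CompleteSpace H] (M N : VonNeumannAlgebra H) (τ : Elt M → ℂ)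
    (σ : Elt N → ℂ), IsIIOneFactor M τ → IsIIOneFactor N σ →
    Metric.hausdorffDist {x : H →L[ℂ] H | x ∈ M ∧ ‖x‖ ≤ 1} {x | x ∈ N ∧ ‖x‖ ≤ 1} < δ →
    Nonempty (Elt M ≃⋆ₐ[ℂ] Elt N) := by
  obtain ⟨δ, hδ, h⟩ := gmain
  refine ⟨δ, hδ, ?_⟩
  intro H _ _ _ M N τ σ hM hN hd
  refine h H M N τ σ hM hN (near_of_hd hd) (near_of_hd ?_)
  rwa [Metric.hausdorffDist_comm]

end Pool.Agent.H256.KKS
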